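import Mathlib

/-!
Definitions for the illumination of bodies of constant width in dimension four
by the eight directions of an orthonormal frame (problem MP_ba7b31_co).
-/

set_option autoImplicit false

namespace Pool.Agent.TH641.CW

/-- four dimensional Euclidean space -/
abbrev E4 : Type := EuclideanSpace ℝ (Fin 4)

/-- the sign of a Boolean: `true` is `1`, `false` is `-1` -/
def sg (b : Bool) : ℝ := if b then 1 else -1

/-- `K` has diameter at most one -/
def DiamOne (K : Set E4) : Prop := ∀ x ∈ K, ∀ y ∈ K, ‖x - y‖ ≤ 1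

/-- `q` is a bad point for the frame `f`, witnessed by the vectors `u i`: each `u i` is a unit
vector orthogonal to `f i`, and `q - u i` lies in `K`. -/
def Bad (K : Set E4) (f : Fin 4 → E4) (q : E4) (u : Fin 4 → E4) : Prop :=
  q ∈ K ∧ ∀ i, ‖u i‖ = 1 ∧ q - u i ∈ K ∧ inner ℝ (u i) (f i) = 0

/-- the frame `f` has a bad point of sign type `σ` -/
def HasType (K : Set E4) (f : Fin 4 → E4) (σ : Fin 4 → Bool) : Prop :=
  ∃ (q : E4) (u : Fin 4 → E4), Bad K f q u ∧ ∀ i k, 0 ≤ sg (σ k) * inner ℝ (u i) (f k)

/-- the number of coordinates in which two sign types differ -/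
def hd (σ τ : Fin 4 → Bool) : ℕ := (Finset.univ.filter (fun i => σ i ≠ τ i)).card

/-- the product of the signs of a type -/
def eps (σ : Fin 4 → Bool) : ℝ := sg (σ 0) * sg (σ 1) * sg (σ 2) * sg (σ 3)

/-- the type of the frame after the flip of the second parameter -/
def swapT (σ : Fin 4 → Bool) : Fin 4 → Bool := ![σ 0, σ 2, σ 1, !(σ 3)]

/-- the frame after the flip of the second parameter -/
def swapF (f : Fin 4 → E4) : Fin 4 → E4 := ![f 0, f 2, f 1, -(f 3)]

/-- the opposite type -/
def negT (σ : Fin 4 → Bool) : Fin 4 → Bool := fun i => !(σ i)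

/-- the opposite frame -/
def negF (f : Fin 4 → E4) : Fin 4 → E4 := fun i => -(f i)

/-- `K` contains the vertices of a regular tetrahedron with edge one -/
def HasTetra (K : Set E4) : Prop :=
  ∃ p : Fin 4 → E4, (∀ i, p i ∈ K) ∧ ∀ i j, i ≠ j → ‖p i - p j‖ = 1

end Pool.Agent.TH641.CW
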